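import Pool.Agent.helper75.WB.SpecI

/-!
# Row ICOP: coprimality of small coordinates of a prime
-/

set_option autoImplicit false

namespace Pool.Agent.WB

theorem ICOP : ICOP_stmt := by
  intro p q q' x y hp h hx hy
  rw [Int.isCoprime_iff_gcd_eq_one]
  have hgx : ((Int.gcd x y : ℕ) : ℤ) ∣ x := Int.gcd_dvd_left ..
  have hgy : ((Int.gcd x y : ℕ) : ℤ) ∣ y := Int.gcd_dvd_right ..
  have hgp : ((Int.gcd x y : ℕ) : ℤ) ∣ (p : ℤ) := by
    rw [← h]
    exact dvd_add (Dvd.dvd.mul_right hgx q) (Dvd.dvd.mul_right hgy q')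
  have hgp' : Int.gcd x y ∣ p := Int.natCast_dvd_natCast.1 hgp
  rcases (Nat.dvd_prime hp).1 hgp' with h1 | h1
  · exact h1
  · exfalso
    rw [h1] at hgx hgy
    have hx0 : x = 0 := Int.eq_zero_of_abs_lt_dvd hgx hx
    have hy0 : y = 0 := Int.eq_zero_of_abs_lt_dvd hgy hy
    rw [hx0, hy0] at h
    have hp0 : (p : ℤ) = 0 := by rw [← h]; ring
    have : p = 0 := by exact_mod_cast hp0
    exact hp.ne_zero this

end Pool.Agent.WB
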