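import Pool.Agent.helper78.WB.SpecIII

/-!
# Row HQ: quotients of forms are forms
-/

set_option autoImplicit false

namespace Pool.Agent.WB

open MvPolynomial

attribute [local instance] MvPolynomial.gradedAlgebra in
theorem HQ : HQ_stmt := by
  classical
  intro R _ _ p q d e hp hp0 hq hq0 hdvd
  obtain ⟨r, rfl⟩ := hdvd
  have hp' : p ∈ homogeneousSubmodule (Fin 3) R d := hp
  have hq' : p * r ∈ homogeneousSubmodule (Fin 3) R e := hq
  have h0 : ((DirectSum.decompose (homogeneousSubmodule (Fin 3) R) (p * r) e :
      homogeneousSubmodule (Fin 3) R e) : MvPolynomial (Fin 3) R) = p * r :=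
    DirectSum.decompose_of_mem_same (homogeneousSubmodule (Fin 3) R) hq'
  by_cases h : d ≤ e
  · refine ⟨h, ((DirectSum.decompose (homogeneousSubmodule (Fin 3) R) r (e - d) :
      homogeneousSubmodule (Fin 3) R (e - d)) : MvPolynomial (Fin 3) R), ?_, ?_⟩
    · exact (DirectSum.decompose (homogeneousSubmodule (Fin 3) R) r (e - d)).2
    · rw [← DirectSum.coe_decompose_mul_of_left_mem_of_le (homogeneousSubmodule (Fin 3) R) hp' h]
      exact h0.symm
  · exfalso
    rw [DirectSum.coe_decompose_mul_of_left_mem_of_not_le (homogeneousSubmodule (Fin 3) R) hp' h]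
      at h0
    exact hq0 h0.symm

end Pool.Agent.WB
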