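import Pool.Agent.helper78.WB.SpecIII

/-!
# Row NDW: the degree in one variable and divisibility
-/

set_option autoImplicit false

namespace Pool.Agent.WB

open MvPolynomial

theorem NDW : NDW_stmt := by
  intro p Q hp hQ hQ1 hdvd
  obtain ⟨r, rfl⟩ := hdvd
  have hp0 : p ≠ 0 := left_ne_zero_of_mul hQ
  have hr0 : r ≠ 0 := right_ne_zero_of_mul hQ
  have h := degreeOf_mul_eq (n := 2) hp0 hr0
  omega

end Pool.Agent.WB
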